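import Pool.Agent.H37.CTP.Stmts

/-!
Board ctp (MP_b57703_ag), row SFN, helper38: `N` for all quotients of `SL_n(q)`, `n ≥ 3`.
-/

set_option autoImplicit false

namespace Pool.CND

open Finset Polynomial

theorem sfn_thm (hP : S_PFN) (hR : S_RFN) : S_SFN := by
  intro p k F _ _ _ f q n hp hc hf hq hF hn C _ hC
  by_cases h2 : p = 2
  · subst h2
    rw [hR k F f q n hc hf hq hF hn C hC]
    have hg : Nat.gcd 2 q = 2 := by
      apply Nat.gcd_eq_left
      rw [hq]
      exact dvd_pow_self 2 (by omega)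
    have h1 : 0 < f * (n - 2) := Nat.mul_pos hf (by omega)
    obtain ⟨m, hm⟩ : ∃ m, f * (n - 2) = m + 1 := ⟨f * (n - 2) - 1, by omega⟩
    have e : q ^ (n - 2) / Nat.gcd 2 q = 2 ^ (f * (n - 2) - 1) := by
      rw [hg, hq, ← pow_mul, hm, Nat.add_sub_cancel, pow_succ, Nat.mul_div_cancel _ (by norm_num)]
    rw [e]
  · rw [hP p k F f q n hp h2 hc hf hq hF hn C hC]
    have hg : Nat.gcd 2 q = 1 := by
      rw [hq]
      exact Nat.Coprime.pow_right f ((Nat.coprime_primes Nat.prime_two hp).2 (Ne.symm h2))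
    rw [hg, Nat.div_one]

end Pool.CND
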